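import Pool.Agent.Q183.AR.SncB

/-!
# MP_7ecdd4_nt: the strong n-conjecture along linear recurrences
-/

set_option autoImplicit false

namespace Pool.Agent.Results.MP_7ecdd4_nt.AlongRecurrences

open Pool.Agent.Q183.AR

variable {n : ℕ} {J : Type} [Fintype J]

/-- the admissible tuples of the problem -/
def Admissible (x : Fin n → ℤ) : Prop :=
  (∀ i, x i ≠ 0) ∧ (∀ i j, i ≠ j → IsCoprime (x i) (x j)) ∧ ∑ i, x i = 0

/-- the product of the primes dividing `m` -/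
def rad (m : ℤ) : ℕ := ∏ p ∈ m.natAbs.primeFactors, p

/-- the tuple `x_i(t) = κ_i μ_i ^ t ∏ g_j(t) ^ e_ij` -/
def x (κ μ : Fin n → ℤ) (g : J → ℕ → ℤ) (e : Fin n → J → ℕ) (t : ℕ) (i : Fin n) : ℤ :=
  κ i * μ i ^ t * ∏ j, g j t ^ e i j

/-- the largest exponent `E_j` of the base `g_j` -/
def maxExp (e : Fin n → J → ℕ) (j : J) : ℕ := Finset.univ.sup fun i => e i j

/-- the product `Q(t)` of the bases which occur -/
def bases (g : J → ℕ → ℤ) (e : Fin n → J → ℕ) (t : ℕ) : ℤ :=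
  ∏ j ∈ Finset.univ.filter (fun j => maxExp e j ≠ 0), g j t

/-- The two inequalities with the constant `C`. -/
def Good (κ μ : Fin n → ℤ) (g : J → ℕ → ℤ) (e : Fin n → J → ℕ) (C : ℝ) (s : ℕ) : Prop :=
  (∀ i, |(x κ μ g e s i : ℝ)| ≤ C * ∏ j, |(g j s : ℝ)| ^ min (maxExp e j) (n - 2)) ∧
  (Squarefree (bases g e s) → ∀ i, |(x κ μ g e s i : ℝ)| ≤
    C * (rad (∏ k, x κ μ g e s k) : ℝ) ^ (n - 2))

theorem bases_le {κ μ : Fin n → ℤ} {g : J → ℕ → ℤ} {e : Fin n → J → ℕ} {s : ℕ}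
    (h : ∀ i, x κ μ g e s i ≠ 0) (hsq : Squarefree (bases g e s)) :
    |(bases g e s : ℝ)| ≤ rad (∏ k, x κ μ g e s k) := by
  classical
  have h1 : (bases g e s).natAbs = ∏ p ∈ (bases g e s).natAbs.primeFactors, p :=
    (Nat.prod_primeFactors_of_squarefree (Int.squarefree_natAbs.2 hsq)).symm
  have h2 : (bases g e s).natAbs.primeFactors ⊆ (∏ k, x κ μ g e s k).natAbs.primeFactors := by
    intro p hp
    have hp1 := Nat.prime_of_mem_primeFactors hp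
    have hp2 : (p : ℤ) ∣ bases g e s := Int.natCast_dvd.2 (Nat.dvd_of_mem_primeFactors hp)
    refine Nat.mem_primeFactors.2 ⟨hp1, Int.natCast_dvd.1 ?_,
      Int.natAbs_ne_zero.2 (Finset.prod_ne_zero_iff.2 fun k _ => h k)⟩
    unfold bases at hp2
    obtain ⟨j, hj, hpj⟩ := (Nat.prime_iff_prime_int.1 hp1).exists_mem_finset_dvd hp2
    obtain ⟨i, hi⟩ : ∃ i, e i j ≠ 0 := by
      by_contra hcon
      push Not at hcon
      exact (Finset.mem_filter.1 hj).2 ((Finset.sup_eq_bot_iff _ _).2 fun i _ => hcon i)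
    exact (hpj.trans (dvd_T κ μ g hi)).trans (Finset.dvd_prod_of_mem _ (Finset.mem_univ i))
  have h3 : (bases g e s).natAbs ≤ rad (∏ k, x κ μ g e s k) := by
    rw [h1]
    unfold rad
    exact Finset.prod_le_prod_of_subset_of_one_le' h2 fun p hp _ =>
      (Nat.prime_of_mem_primeFactors hp).one_lt.le
  calc |(bases g e s : ℝ)| = ((bases g e s).natAbs : ℝ) := by rw [Nat.cast_natAbs]; push_cast; rfl
    _ ≤ _ := by exact_mod_cast h3

theorem result (n : ℕ) (g : J → ℕ → ℤ) (hg : ∀ j, ∃ E : LinearRecurrence ℤ, E.IsSolution (g j))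
    (κ μ : Fin n → ℤ) (hμ : ∀ i, μ i ≠ 0) (e : Fin n → J → ℕ) (η : ℝ) (hη : 0 < η) :
    ∃ (C : ℝ) (N z : ℕ), ∀ t m : ℕ, z ≤ t → N ≤ m →
      (({s | t ≤ s ∧ s < t + m ∧ Admissible (x κ μ g e s) ∧ ¬ Good κ μ g e C s}.ncard : ℕ) : ℝ) ≤
        η * m := by
  classical
  obtain ⟨C, N, z, hC, h⟩ := sncB g hg κ μ hμ e η hη
  refine ⟨C, N, z, fun t m ht hm => le_trans ?_ (h t m ht hm)⟩
  have h1 : {s | t ≤ s ∧ s < t + m ∧ Admissible (x κ μ g e s) ∧ ¬ Good κ μ g e C s} ⊆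
      {s | t ≤ s ∧ s < t + m ∧ ¬ (∑ i, T κ μ g e i s = 0 → Cop (fun i => T κ μ g e i s) →
        ∀ i, |(T κ μ g e i s : ℝ)| ≤ C * bd g e s)} := by
    rintro s ⟨h2, h3, ⟨h4, h5, h6⟩, h7⟩
    refine ⟨h2, h3, fun h8 => h7 ?_⟩
    have h9 := h8 h6 ⟨h4, h5⟩
    refine ⟨h9, fun hsq i => (h9 i).trans (mul_le_mul_of_nonneg_left ?_ hC.le)⟩
    refine le_trans ?_ (pow_le_pow_left₀ (abs_nonneg _) (bases_le h4 hsq) (n - 2))
    unfold bd bases
    rw [Int.cast_prod, Finset.abs_prod, ← Finset.prod_pow, Finset.prod_filter]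
    refine Finset.prod_le_prod (fun j _ => pow_nonneg (abs_nonneg _) _) fun j _ => ?_
    split_ifs with hj
    · have h10 : (1 : ℝ) ≤ |(g j s : ℝ)| := by exact_mod_cast Int.one_le_abs (g_ne h4 j hj)
      exact pow_le_pow_right₀ h10 (min_le_right _ _)
    · have h10 : E e j = 0 := not_not.1 hj
      rw [h10, Nat.zero_min, pow_zero]
  exact_mod_cast Set.ncard_le_ncard h1 ((Set.finite_Ico t (t + m)).subset fun _ hs => ⟨hs.1, hs.2.1⟩)

end Pool.Agent.Results.MP_7ecdd4_nt.AlongRecurrences
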