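import Mathlib
import Pool.Agent.Q273.SN.Dim

/-!
# The metric theory of the strong n-conjecture, `n ≥ 4`

Let `n = N + 2 ≥ 4`. An admissible `n`-tuple `x` consists of nonzero pairwise coprime integers with sum
zero; `size x` is the largest absolute value of the entries and `rad x` the radical of their product.
The `N` quotients `x_1 / x_0, …, x_N / x_0` determine the tuple up to sign. They are compared with the
points `u = (ξ, η)` of `ℝ ^ N × ∏_p ℤ_p ^ N`.
-/

set_option autoImplicit false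

open MeasureTheory

namespace Pool.Agent.Results.MP_7ecdd4_nt.MetricLaw

/-- an admissible tuple: nonzero pairwise coprime integers with sum zero -/
def Admissible {n : ℕ} (x : Fin n → ℤ) : Prop :=
  (∀ i, x i ≠ 0) ∧ (∀ i j, i ≠ j → Int.gcd (x i) (x j) = 1) ∧ ∑ i, x i = 0

/-- the largest absolute value of the entries -/
def size {n : ℕ} (x : Fin n → ℤ) : ℕ := Finset.univ.sup fun i => (x i).natAbs

/-- the radical of the product of the entries -/
def rad {n : ℕ} (x : Fin n → ℤ) : ℕ := ∏ p ∈ (∏ i, x i).natAbs.primeFactors, p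

/-- the reciprocal of the quality: `log rad / log size` -/
noncomputable def ρ {n : ℕ} (x : Fin n → ℤ) : ℝ := Real.log (rad x) / Real.log (size x)

/-- the quotients `x_1 / x_0, …, x_N / x_0` -/
def ratio {N : ℕ} (x : Fin (N + 2) → ℤ) : Fin N → ℚ :=
  fun j => (x j.succ.castSucc : ℚ) / (x 0 : ℚ)

/-- the product of the groups `ℤ_p ^ N` over all primes `p`, with the product topology -/
abbrev ZHat (N : ℕ) : Type := (p : Nat.Primes) → Fin N → @PadicInt p.1 ⟨p.2⟩

/-- the proximity of `y` to `u = (ξ, η)` at the infinite place and at the primes in `V`: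
`log max (1, 1 / |ξ - y|) + ∑_(p ∈ V) log max (1, 1 / |η_p - y|_p)`, with the maximum norms -/
noncomputable def m {N : ℕ} (V : Finset Nat.Primes) (u : (Fin N → ℝ) × ZHat N) (y : Fin N → ℚ) : ℝ :=
  Real.log (max 1 (⨆ j : Fin N, |u.1 j - (y j : ℝ)|)⁻¹) + ∑ p ∈ V,
    haveI : Fact p.1.Prime := ⟨p.2⟩
    Real.log (max 1 (⨆ j : Fin N, ‖((u.2 p j : ℤ_[p.1]) : ℚ_[p.1]) - (y j : ℚ_[p.1])‖)⁻¹)

/-- the exponent, an increasing function with `F(N + 2) = N + 1` -/
noncomputable def F (N : ℕ) (lam : ℝ) : ℝ :=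
  if lam < (3 * N + 4) / 10 then (3 * N + 1) / (3 * N + 4) * lam
  else if lam ≤ N * (N + 2) / (N + 1) then (N + 1) / (N + 2) * lam
  else if lam ≤ N + 1 then N
  else lam - 1

open Q273.SN (lrad siz Adm rt mZ)

private lemma size_pos {N : ℕ} {x : Fin (N + 2) → ℤ} (hx : Admissible x) : (1 : ℝ) ≤ size x := by
  exact_mod_cast Q273.SN.siz_pos (by omega) hx

private lemma log_size_nonneg {N : ℕ} {x : Fin (N + 2) → ℤ} (hx : Admissible x) :
    0 ≤ Real.log (size x) := Real.log_nonneg (size_pos hx)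

private lemma rad_cast_pos {n : ℕ} (x : Fin n → ℤ) : (0 : ℝ) < rad x := by
  exact_mod_cast Q273.SN.rad_pos x

private lemma rad_le_iff {N : ℕ} {x : Fin (N + 2) → ℤ} (hx : Admissible x) (t : ℝ) :
    (rad x : ℝ) ≤ (size x : ℝ) ^ t ↔ lrad x ≤ t * Real.log (siz x) := by
  have h1 : (0 : ℝ) < size x := lt_of_lt_of_le one_pos (size_pos hx)
  rw [← Real.log_le_log_iff (rad_cast_pos x) (Real.rpow_pos_of_pos h1 _), Real.log_rpow h1]
  show Real.log (Q273.SN.rad x) ≤ _ ↔ _
  rw [Q273.SN.log_rad hx]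
  rfl

private lemma lt_size_iff {N : ℕ} {x : Fin (N + 2) → ℤ} (hx : Admissible x) (M : ℝ) :
    (rad x : ℝ) ^ M < (size x : ℝ) ↔ M * lrad x < Real.log (siz x) := by
  have h1 : (0 : ℝ) < size x := lt_of_lt_of_le one_pos (size_pos hx)
  rw [← Real.log_lt_log_iff (Real.rpow_pos_of_pos (rad_cast_pos x) _) h1,
    Real.log_rpow (rad_cast_pos x)]
  show M * Real.log (Q273.SN.rad x) < _ ↔ _
  rw [Q273.SN.log_rad hx]
  rfl

/-- the bound in terms of the exponent -/
private lemma combine {N : ℕ} (hN : 2 ≤ N) {L S a ε CA CB CC CD : ℝ} (hL0 : 0 ≤ L) (hS0 : 0 ≤ S)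
    (hLS : L ≤ (N + 2) * S) (hε : 0 < ε)
    (hA : L < (3 * (N : ℝ) + 4) / 10 * S → a ≤ (3 * (N : ℝ) + 1) / (3 * N + 4) * L + ε * S + CA)
    (hB : S ≤ (1 + L) ^ 2 → a ≤ (((N : ℝ) + 1) / (N + 2) + ε / (N + 2)) * L + CB)
    (hC : L ≤ ((N : ℝ) + 1) * S → a ≤ ((N : ℝ) + ε) * S + CC)
    (hD : ((N : ℝ) + 1) * S ≤ L → a ≤ L - S + ε * S + CD) :
    a ≤ (F N (L / S) + ε) * S + (|CA| + |CB| + |CC| + |CD|) := by
  have hN' : (2 : ℝ) ≤ N := by exact_mod_cast hN
  have a1 := le_abs_self CA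
  have a2 := le_abs_self CB
  have a3 := le_abs_self CC
  have a4 := le_abs_self CD
  have b1 := abs_nonneg CA
  have b2 := abs_nonneg CB
  have b3 := abs_nonneg CC
  have b4 := abs_nonneg CD
  rcases eq_or_lt_of_le hS0 with h | hS
  · have hL : L = 0 := by
      rw [← h, mul_zero] at hLS
      exact le_antisymm hLS hL0
    have h1 := hC (by rw [← h, hL]; simp)
    rw [← h] at h1 ⊢
    rw [mul_zero] at h1 ⊢
    linarith
  obtain ⟨r, hr⟩ : ∃ r : ℝ, r = L / S := ⟨_, rfl⟩
  have hLr : L = r * S := by rw [hr, div_mul_cancel₀ _ hS.ne']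
  have hr0 : 0 ≤ r := by rw [hr]; positivity
  have hr2 : r ≤ N + 2 := by rw [hr, div_le_iff₀ hS]; exact hLS
  rw [← hr]
  unfold F
  split_ifs with h1 h2 h3
  · have h4 := hA (by rw [hLr]; exact mul_lt_mul_of_pos_right h1 hS)
    rw [hLr] at h4
    have h5 : (3 * (N : ℝ) + 1) / (3 * N + 4) * (r * S) =
        (3 * (N : ℝ) + 1) / (3 * N + 4) * r * S := by ring
    rw [h5] at h4
    linarith
  · push Not at h1
    have h6 : 1 ≤ r := le_trans (by linarith) h1
    have h4 := hB (by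
      rw [hLr]
      nlinarith [mul_le_mul_of_nonneg_right h6 hS.le, sq_nonneg (r * S)])
    have h5 : (((N : ℝ) + 1) / (N + 2) + ε / (N + 2)) * L ≤
        ((N : ℝ) + 1) / (N + 2) * r * S + ε * S := by
      have h7 : ε / ((N : ℝ) + 2) * L ≤ ε * S := by
        rw [div_mul_eq_mul_div, div_le_iff₀ (by linarith)]
        nlinarith
      rw [add_mul]
      nth_rewrite 1 [hLr]
      linarith
    linarith
  · have h4 := hC (by rw [hLr]; exact mul_le_mul_of_nonneg_right h3 hS.le)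
    linarith
  · push Not at h3
    have h4 := hD (by rw [hLr]; exact mul_le_mul_of_nonneg_right h3.le hS.le)
    rw [hLr] at h4
    linarith

/-- **The metric theory of the strong n-conjecture**, `n = N + 2 ≥ 4`. Let `μ` be a finite translation
invariant Borel measure on the compact group `ZHat N` (a multiple of Haar measure), let `Y` be any metric
space and `φ` any map from the `n`-tuples of integers to `Y`.

For almost every `u` with respect to the product of Lebesgue measure and `μ`, for all finite sets `V` of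
primes:
1. for every `ε > 0` there is `C` such that ALL admissible `n`-tuples satisfy
   `N m_V ≤ (F(ρ) + ε) log size + C`;
2. for every `ε > 0` there is `C` such that `log size + N m_V ≤ log rad + ε log size + C` for all
   admissible `n`-tuples with `N m_V ≥ (N + ε) log size` or `rad ≥ size ^ (n - 1)`.

3. For `0 ≤ κ ≤ 1` and `δ > 0` the number of the admissible `n`-tuples with size at most `X` and
   `rad ≤ size ^ (n - κ)` is at most `C X ^ (n - 1 - κ + δ)`.
4. For `0 ≤ κ ≤ 1` and `τ > 0` the points of `Y` to which, for some `A`, infinitely many admissible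
   `n`-tuples with `rad ≤ size ^ (n - κ)` have distance at most `A size ^ (-τ)` form a set of Hausdorff
   dimension at most `(n - 1 - κ) / τ`.
5. For `M ≥ 10 / (3 n - 2)` and `τ > 0` the points of `Y` to which, for some `A`, infinitely many
   admissible `n`-tuples with `rad ^ M < size` have distance at most `A size ^ (-τ)` form a set of
   Hausdorff dimension at most `(3 n - 5) / ((3 n - 2) M τ)`.
6. Outside a set of Hausdorff dimension zero every point of `Y` has, for all `τ > 0` and `A`, an `M` such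
   that `size ≤ rad ^ M` for ALL admissible `n`-tuples at distance at most `A size ^ (-τ)`. -/
theorem result.{w} (N : ℕ) (hN : 2 ≤ N) [MeasurableSpace (ZHat N)] [BorelSpace (ZHat N)]
    (μ : Measure (ZHat N)) [IsFiniteMeasure μ] [μ.IsAddLeftInvariant] (Y : Type w) [MetricSpace Y]
    (φ : (Fin (N + 2) → ℤ) → Y) :
    (∀ᵐ u : (Fin N → ℝ) × ZHat N ∂(volume.prod μ), ∀ V : Finset Nat.Primes,
      (∀ ε : ℝ, 0 < ε → ∃ C : ℝ, ∀ x : Fin (N + 2) → ℤ, Admissible x →
        N * m V u (ratio x) ≤ (F N (ρ x) + ε) * Real.log (size x) + C) ∧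
      ∀ ε : ℝ, 0 < ε → ∃ C : ℝ, ∀ x : Fin (N + 2) → ℤ, Admissible x →
        (((N : ℝ) + ε) * Real.log (size x) ≤ N * m V u (ratio x) ∨
          ((N : ℝ) + 1) * Real.log (size x) ≤ Real.log (rad x)) →
        Real.log (size x) + N * m V u (ratio x) ≤
          Real.log (rad x) + ε * Real.log (size x) + C) ∧
    (∀ κ : ℝ, 0 ≤ κ → κ ≤ 1 → ∀ δ : ℝ, 0 < δ → ∃ C : ℝ, ∀ X : ℝ, 1 ≤ X →
      {x : Fin (N + 2) → ℤ | Admissible x ∧ (rad x : ℝ) ≤ (size x : ℝ) ^ ((N : ℝ) + 2 - κ) ∧
        (size x : ℝ) ≤ X}.Finite ∧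
      ({x : Fin (N + 2) → ℤ | Admissible x ∧ (rad x : ℝ) ≤ (size x : ℝ) ^ ((N : ℝ) + 2 - κ) ∧
        (size x : ℝ) ≤ X}.ncard : ℝ) ≤ C * X ^ ((N : ℝ) + 1 - κ + δ)) ∧
    (∀ κ τ : ℝ, 0 ≤ κ → κ ≤ 1 → 0 < τ →
      dimH {ξ : Y | ∃ A : ℝ, {x : Fin (N + 2) → ℤ | Admissible x ∧
        (rad x : ℝ) ≤ (size x : ℝ) ^ ((N : ℝ) + 2 - κ) ∧
        dist ξ (φ x) ≤ A * (size x : ℝ) ^ (-τ)}.Infinite} ≤
      ENNReal.ofReal (((N : ℝ) + 1 - κ) / τ)) ∧
    (∀ M τ : ℝ, 10 / (3 * (N : ℝ) + 4) ≤ M → 0 < τ →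
      dimH {ξ : Y | ∃ A : ℝ, {x : Fin (N + 2) → ℤ | Admissible x ∧
        (rad x : ℝ) ^ M < (size x : ℝ) ∧ dist ξ (φ x) ≤ A * (size x : ℝ) ^ (-τ)}.Infinite} ≤
      ENNReal.ofReal ((3 * (N : ℝ) + 1) / ((3 * (N : ℝ) + 4) * M * τ))) ∧
    dimH {ξ : Y | ¬ ∀ τ A : ℝ, 0 < τ → ∃ M : ℝ, ∀ x : Fin (N + 2) → ℤ, Admissible x →
      dist ξ (φ x) ≤ A * (size x : ℝ) ^ (-τ) → (size x : ℝ) ≤ (rad x : ℝ) ^ M} = 0 := by
  have hN' : (2 : ℝ) ≤ N := by exact_mod_cast hN
  refine ⟨?_, ?_, ?_, ?_, ?_⟩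
  · filter_upwards [Q273.SN.lawA hN μ, Q273.SN.lawB (by omega) μ, Q273.SN.lawC hN μ] with u uA uB uC
    intro V
    obtain ⟨uC1, uC2⟩ := uC V
    refine ⟨fun ε hε => ?_, fun ε hε => ?_⟩
    · obtain ⟨CA, hA⟩ := uA V ε hε
      obtain ⟨CB, hB⟩ := uB V (ε / (N + 2)) (by positivity)
      obtain ⟨CC, hC⟩ := uC2 ε hε
      obtain ⟨CD, hD⟩ := uC1 ε hε
      refine ⟨|CA| + |CB| + |CC| + |CD|, fun x hx => ?_⟩
      have h1 := Q273.SN.lrad_le (n := N + 2) hx
      have h2 := combine hN (a := N * m V u (ratio x)) (Q273.SN.lrad_nonneg x)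
        (log_size_nonneg hx) (by
          have e : (((N + 2 : ℕ) : ℝ)) = (N : ℝ) + 2 := by push_cast; ring
          rw [e] at h1
          exact h1) hε (hA x hx) (hB x hx) (hC x hx) (hD x hx)
      have h3 : ρ x = lrad x / Real.log (size x) := by
        unfold ρ
        show Real.log (Q273.SN.rad x) / _ = _
        rw [Q273.SN.log_rad hx]
      rw [h3]
      exact h2
    · obtain ⟨CC, hC⟩ := uC2 (ε / 2) (by positivity)
      obtain ⟨CD, hD⟩ := uC1 ε hε
      refine ⟨((N : ℝ) + 1 + ε / 2) * (2 * |CC| / ε) + |CC| + |CD|, fun x hx hcase => ?_⟩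
      have hS0 := log_size_nonneg hx
      have hL0 := Q273.SN.lrad_nonneg x
      have hlr : Real.log (rad x) = lrad x := Q273.SN.log_rad hx
      have b1 := abs_nonneg CC
      have b2 := abs_nonneg CD
      have b3 := le_abs_self CC
      have b4 := le_abs_self CD
      have b5 : 0 ≤ ((N : ℝ) + 1 + ε / 2) * (2 * |CC| / ε) := by positivity
      rw [hlr] at hcase ⊢
      have hbig : ((N : ℝ) + 1) * Real.log (size x) ≤ lrad x →
          Real.log (size x) + N * m V u (ratio x) ≤ lrad x + ε * Real.log (size x) +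
            (((N : ℝ) + 1 + ε / 2) * (2 * |CC| / ε) + |CC| + |CD|) := by
        intro h
        have h1 : N * m V u (ratio x) ≤ lrad x - Real.log (size x) + ε * Real.log (size x) + CD :=
          hD x hx h
        linarith
      rcases hcase with hcase | hcase
      · rcases le_total (((N : ℝ) + 1) * Real.log (size x)) (lrad x) with h | h
        · exact hbig h
        · have h1 : N * m V u (ratio x) ≤ ((N : ℝ) + ε / 2) * Real.log (size x) + CC :=
            hC x hx h
          have h2 : Real.log (size x) ≤ 2 * |CC| / ε := by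
            rw [le_div_iff₀ hε]
            nlinarith
          have h3 : ((N : ℝ) + 1 + ε / 2) * Real.log (size x) ≤
              ((N : ℝ) + 1 + ε / 2) * (2 * |CC| / ε) :=
            mul_le_mul_of_nonneg_left h2 (by positivity)
          have h4 : 0 ≤ ε * Real.log (size x) := by positivity
          linarith
      · exact hbig hcase
  · intro κ h0 h1 δ hδ
    obtain ⟨C, hC⟩ := Q273.SN.cnt (n := N + 2) (by omega) h0 h1 hδ
    refine ⟨C, fun X hX => ?_⟩
    have hset : {x : Fin (N + 2) → ℤ | Admissible x ∧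
          (rad x : ℝ) ≤ (size x : ℝ) ^ ((N : ℝ) + 2 - κ) ∧ (size x : ℝ) ≤ X} =
        {x : Fin (N + 2) → ℤ | Adm x ∧
          κ * Real.log (siz x) ≤ ((N + 2 : ℕ) : ℝ) * Real.log (siz x) - lrad x ∧
          (siz x : ℝ) ≤ X} := by
      ext x
      refine and_congr_right fun hx => and_congr_left fun _ => ?_
      rw [rad_le_iff hx]
      push_cast
      constructor <;> intro h <;> linarith
    rw [hset]
    refine ⟨(hC X hX).1, (hC X hX).2.trans (le_of_eq ?_)⟩
    congr 2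
    push_cast
    ring
  · intro κ τ h0 h1 hτ
    obtain ⟨E, h2, h3⟩ := Q273.SN.dimC hN φ h0 h1 hτ
    refine (dimH_mono ?_).trans h2
    rintro ξ ⟨A, hA⟩
    by_contra hξ
    refine hA ((h3 ξ hξ A).subset ?_)
    rintro x ⟨hx, h4, h5⟩
    exact ⟨hx, (rad_le_iff hx _).1 h4, h5⟩
  · intro M τ hM hτ
    obtain ⟨E, h2, h3⟩ := Q273.SN.dimA hN φ hM hτ
    refine (dimH_mono ?_).trans h2
    rintro ξ ⟨A, hA⟩
    by_contra hξ
    refine hA ((h3 ξ hξ A).subset ?_)
    rintro x ⟨hx, h4, h5⟩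
    exact ⟨hx, (lt_size_iff hx _).1 h4, h5⟩
  · obtain ⟨E, h2, h3⟩ := Q273.SN.dimZ hN φ
    refine le_antisymm ((dimH_mono ?_).trans h2.le) zero_le
    intro ξ hξ
    by_contra hE
    exact hξ (h3 ξ hE)

end Pool.Agent.Results.MP_7ecdd4_nt.MetricLaw
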