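import Pool.Agent.Q135.SNC.Main

/-!
# The strong n-conjecture for products of powers of numbers with small digits

The terms of the admissible tuple are small multiples of products of powers of numbers `F_i(t)` with small
digits (of either sign) in a large base `t` and with last digit `0`, `1` or `-1`; the exponents may be as
large as a power of `t`, so that a priori the terms may be as large as the exponential function of a
power of the radical. As in the problem the terms are pairwise coprime, and proper subsums may vanish.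

Proof. Every vanishing subsum of the values at `t` comes from an identity between the polynomials: split
it into minimal vanishing subsums; in each of them some term is not divisible by `t`, and the library
`Pool.Agent.Q103.SD` (helper103) applies; the sizes are treated as in `Pool.Agent.Q204.NT` (helper204). The
polynomials are pairwise coprime, and the degrees are bounded by the Wronskian of a minimal linear
relation, with the full drop `r (r - 1) / 2` of its degree (for the weaker bound without this drop see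
`Pool.Agent.Y31.U557.WR`, starting files).
-/

set_option autoImplicit false

namespace Pool.Agent.Results.MP_7ecdd4_nt.SmallDigits

open Polynomial Finset

/-- the admissible tuples of the problem -/
def Admissible {n : ℕ} (x : Fin n → ℤ) : Prop :=
  (∀ i, x i ≠ 0) ∧ (∀ i j, i ≠ j → IsCoprime (x i) (x j)) ∧ ∑ i, x i = 0

/-- the product of the distinct primes dividing `x` -/
def rad (x : ℤ) : ℕ := ∏ p ∈ x.natAbs.primeFactors, p

/-- the bases `F i` that occur in some term -/
def used {m n : ℕ} (e : Fin n → Fin m → ℕ) : Finset (Fin m) :=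
  Finset.univ.filter (fun i => ∃ k, e k i ≠ 0)

/-- the sum of the degrees (the numbers of digits minus one) of the bases that occur -/
def total {m n : ℕ} (F : Fin m → ℤ[X]) (e : Fin n → Fin m → ℕ) : ℕ := ∑ i ∈ used e, (F i).natDegree

/-- The bases `F_i(t)` are the values of nonconstant polynomials of total degree at most `K` with
coefficients (digits) of absolute value at most `H` and last digit `0`, `1` or `-1`; the coefficients `α k`
are nonzero of absolute value at most `H`, and in each term the sum of the exponents is at most `H`. -/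
structure Terms (K : ℕ) (H : ℝ) {m n : ℕ} (F : Fin m → ℤ[X]) (α : Fin n → ℤ)
    (e : Fin n → Fin m → ℕ) : Prop where
  pos : ∀ i, 0 < (F i).natDegree
  deg : ∑ i, (F i).natDegree ≤ K
  digits : ∀ i j, |((F i).coeff j : ℝ)| ≤ H
  last : ∀ i, (F i).coeff 0 = 0 ∨ (F i).coeff 0 = 1 ∨ (F i).coeff 0 = -1
  ne : ∀ k, α k ≠ 0
  coef : ∀ k, |(α k : ℝ)| ≤ H
  exps : ∀ k, ((∑ i, e k i : ℕ) : ℝ) ≤ H

/-- the terms -/
def term {m n : ℕ} (F : Fin m → ℤ[X]) (α : Fin n → ℤ) (e : Fin n → Fin m → ℕ) (t : ℕ) (k : Fin n) : ℤ :=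
  α k * ∏ i, (F i).eval (t : ℤ) ^ e k i

/-- the product of the bases that occur -/
def bases {m n : ℕ} (F : Fin m → ℤ[X]) (e : Fin n → Fin m → ℕ) (t : ℕ) : ℤ :=
  ∏ i ∈ used e, (F i).eval (t : ℤ)

theorem result (n K : ℕ) (hn : 3 ≤ n) (ε : ℝ) (hε : 0 < ε) :
    ∃ δ : ℝ, 0 < δ ∧ ∃ t₀ : ℕ, ∀ t : ℕ, t₀ ≤ t →
    ∀ (m : ℕ) (F : Fin m → ℤ[X]) (α : Fin n → ℤ) (e : Fin n → Fin m → ℕ),
      Terms K ((t : ℝ) ^ δ) F α e → Admissible (term F α e t) →
      (∀ S : Finset (Fin n), ∑ k ∈ S, term F α e t k = 0 →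
        ∑ k ∈ S, C (α k) * ∏ i, F i ^ e k i = 0) ∧
      ((used e).Nonempty → ∀ k,
        (∑ i, e k i * (F i).natDegree + (n - 2) ≤ (n - 2) * total F e ∧
          2 * ∑ i, e k i * (F i).natDegree + total F e ≤ total F e * total F e ∧
          (n ≤ total F e + 2 →
            2 * ∑ i, e k i * (F i).natDegree + (n - 1) * (n - 2) ≤ 2 * (n - 2) * total F e)) ∧
        |(term F α e t k : ℝ)| * (t : ℝ) ^ (((n - 2 : ℕ) : ℝ) - ε) ≤ |(bases F e t : ℝ)| ^ (n - 2) ∧
        |(term F α e t k : ℝ)| ^ 2 * (t : ℝ) ^ ((total F e : ℝ) - ε) ≤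
          |(bases F e t : ℝ)| ^ total F e ∧
        (n ≤ total F e + 2 →
          |(term F α e t k : ℝ)| ^ 2 * (t : ℝ) ^ ((((n - 1) * (n - 2) : ℕ) : ℝ) - ε) ≤
            |(bases F e t : ℝ)| ^ (2 * (n - 2))) ∧
        |(term F α e t k : ℝ)| * (t : ℝ) ^ (((n - 2 : ℕ) : ℝ) - ε) *
            (rad (bases F e t) : ℝ) ^ (n - 2) ≤
          |(bases F e t : ℝ)| ^ (n - 2) * (rad (∏ j, term F α e t j) : ℝ) ^ (n - 2) ∧
        (Squarefree (bases F e t) →
          |(term F α e t k : ℝ)| * (t : ℝ) ^ (((n - 2 : ℕ) : ℝ) - ε) ≤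
              (rad (∏ j, term F α e t j) : ℝ) ^ (n - 2) ∧
          |(term F α e t k : ℝ)| ^ 2 * (t : ℝ) ^ ((total F e : ℝ) - ε) ≤
              (rad (∏ j, term F α e t j) : ℝ) ^ total F e ∧
          (n ≤ total F e + 2 →
            |(term F α e t k : ℝ)| ^ 2 * (t : ℝ) ^ ((((n - 1) * (n - 2) : ℕ) : ℝ) - ε) ≤
              (rad (∏ j, term F α e t j) : ℝ) ^ (2 * (n - 2))))) := by
  obtain ⟨δ₁, hδ₁, hδ₁', t₁, ht₁, h1⟩ := Pool.Agent.Q135.SNC.ident n K
  obtain ⟨δ₂, hδ₂, t₂, h2⟩ := Pool.Agent.Q135.SNC.sizes (2 * n + K + 2) K ε hε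
  refine ⟨min δ₁ δ₂, lt_min hδ₁ hδ₂, max t₁ t₂, ?_⟩
  intro t ht m F α e hS hA
  have htt₁ : t₁ ≤ t := (le_max_left _ _).trans ht
  have htt₂ : t₂ ≤ t := (le_max_right _ _).trans ht
  have ht1 : (1 : ℝ) ≤ t := by exact_mod_cast (show 1 ≤ t by omega)
  have hconv : ∀ δ : ℝ, min δ₁ δ₂ ≤ δ → Pool.Agent.Q204.NT.Dat K ((t : ℝ) ^ δ) F α e := by
    intro δ hδ
    have hle : (t : ℝ) ^ (min δ₁ δ₂) ≤ (t : ℝ) ^ δ := Real.rpow_le_rpow_of_exponent_le ht1 hδ
    exact ⟨hS.pos, hS.deg, fun i j => (hS.digits i j).trans hle, fun i => by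
      rcases hS.last i with h | h | h <;> rw [h] <;> norm_num, hS.ne,
      fun k => (hS.coef k).trans hle, fun k => (hS.exps k).trans hle⟩
  have hD1 := hconv δ₁ (min_le_left _ _)
  have hD2 := hconv δ₂ (min_le_right _ _)
  have htk : ∀ k, (Pool.Agent.Q103.SD.PP F (α k) (e k)).eval (t : ℤ) = term F α e t k := fun k => by
    rw [Pool.Agent.Q103.SD.eval_PP]
    rfl
  obtain ⟨hne, hcop, hsum⟩ := hA
  have hid := h1 t htt₁ m F α e hD1 (fun k => by rw [htk]; exact hne k)
    (fun k l hkl => by rw [htk, htk]; exact hcop k l hkl)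
  refine ⟨fun S h0 => hid S (by simp only [htk]; exact h0), fun hU k => ?_⟩
  -- auxiliary sizes
  obtain ⟨r, hr⟩ : ∃ r : ℝ, r = (t : ℝ) ^ (1 / 2 : ℝ) := ⟨_, rfl⟩
  have ht64 : (64 : ℝ) ≤ t := by exact_mod_cast ht₁.trans htt₁
  have ht0 : (0 : ℝ) < t := by linarith
  have hrr : r * r = t := by
    rw [hr, ← Real.rpow_add ht0]
    norm_num
  have hr8 : 8 ≤ r := by
    have hr0 : 0 ≤ r := by rw [hr]; positivity
    nlinarith
  have hBr : (t : ℝ) ^ δ₁ ≤ r := by
    rw [hr]
    exact Real.rpow_le_rpow_of_exponent_le (by linarith) hδ₁'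
  have hB0 : (0 : ℝ) ≤ (t : ℝ) ^ δ₁ := by positivity
  obtain ⟨a, ha1, han, hdeg⟩ := Pool.Agent.Q135.SNC.degrees hD1 hB0 (t := t) (by nlinarith)
    (fun k l hkl => by rw [htk, htk]; exact hcop k l hkl)
    (hid Finset.univ (by simp only [htk]; exact hsum)) hU k
  have har := Pool.Agent.Q135.SNC.arith ha1 han hdeg
  have hSK : total F e ≤ K := by
    unfold total
    exact (Finset.sum_le_univ_sum_of_nonneg fun _ => Nat.zero_le _).trans hS.deg
  have hsz := h2 t htt₂ m n F α e hD2 k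
  rw [htk] at hsz
  have hb1 : |(term F α e t k : ℝ)| * (t : ℝ) ^ (((n - 2 : ℕ) : ℝ) - ε) ≤
      |(bases F e t : ℝ)| ^ (n - 2) := by
    have := hsz (n - 2) 1 (n - 2) (by omega) (by omega) (by rw [one_mul]; exact har.1)
    rw [pow_one] at this
    exact this
  have hb2 : |(term F α e t k : ℝ)| ^ 2 * (t : ℝ) ^ ((total F e : ℝ) - ε) ≤
      |(bases F e t : ℝ)| ^ total F e :=
    hsz (total F e) 2 (total F e) (by omega) (by omega) har.2.1
  have hb3 : n ≤ total F e + 2 →
      |(term F α e t k : ℝ)| ^ 2 * (t : ℝ) ^ ((((n - 1) * (n - 2) : ℕ) : ℝ) - ε) ≤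
        |(bases F e t : ℝ)| ^ (2 * (n - 2)) := fun hN =>
    hsz (2 * (n - 2)) 2 ((n - 1) * (n - 2)) (by omega) (by omega) (har.2.2 hN)
  have hX : ∏ j, term F α e t j ≠ 0 := Finset.prod_ne_zero_iff.mpr fun j _ => hne j
  have hrad : rad (bases F e t) ≤ rad (∏ j, term F α e t j) := by
    refine Pool.Agent.Q103.SD.rad_le hX fun p hp hpQ => ?_
    have hpp : Prime (p : ℤ) := Nat.prime_iff_prime_int.mp hp
    unfold bases at hpQ
    obtain ⟨i, hi, hpi⟩ := (hpp.dvd_finsetProd_iff _).mp hpQ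
    obtain ⟨j, hj⟩ := (Finset.mem_filter.mp hi).2
    have h5 : (p : ℤ) ∣ term F α e t j := by
      unfold term
      exact Dvd.dvd.mul_left ((hpi.trans (dvd_pow_self _ hj)).trans
        (Finset.dvd_prod_of_mem (fun i => (F i).eval (t : ℤ) ^ e j i) (Finset.mem_univ i))) _
    exact h5.trans (Finset.dvd_prod_of_mem _ (Finset.mem_univ j))
  have hradR : ∀ c : ℕ, (rad (bases F e t) : ℝ) ^ c ≤ (rad (∏ j, term F α e t j) : ℝ) ^ c :=
    fun c => pow_le_pow_left₀ (by positivity) (by exact_mod_cast hrad) _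
  refine ⟨har, hb1, hb2, hb3, ?_, fun hsq => ?_⟩
  · exact mul_le_mul hb1 (hradR _) (by positivity) (by positivity)
  · have hQrad : |(bases F e t : ℝ)| = rad (bases F e t) := by
      have h3 : Squarefree (bases F e t).natAbs := Int.squarefree_natAbs.mpr hsq
      have h4 : rad (bases F e t) = (bases F e t).natAbs := Nat.prod_primeFactors_of_squarefree h3
      rw [h4, Nat.cast_natAbs]
      push_cast
      rfl
    rw [hQrad] at hb1 hb2 hb3
    exact ⟨hb1.trans (hradR _), hb2.trans (hradR _), fun hN => (hb3 hN).trans (hradR _)⟩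

end Pool.Agent.Results.MP_7ecdd4_nt.SmallDigits
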