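import Pool.Agent.Q84.NX.Fam2
import Pool.Agent.Results.MP_7ecdd4_nt.CountByRadicalSharp

/-!
# A lower bound for the radicals of all admissible tuples related to the primes of a string

Let `n ≥ 3` and `0 < δ ≤ 1 / (n - 1)`. There are `c, η > 0`, for all `κ > 0` and `m` there is `c' > 0` and for every `Z` a
number `D` with the following property. For every large `X` there is a set `S` of at most `(log X) ^ (49 / 50)` primes,
all larger than `Z`, such that for EVERY function `f` with values `1` and `-1` on the primes at least `X ^ (1 - κ)`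
integers `r`, `X < r ≤ 3X`, satisfy: the interval `[r, r + D]` contains at least `m` primes, and for every prime `p` in it

* the Legendre symbol `(p / q)` is `f q` for all odd primes `q ≤ c' log X` outside `S`;
* EVERY admissible `n`-tuple `x` (non-zero pairwise coprime integers with sum `0`) of height
  `max |x_i| ≤ exp ((log p) ^ (2 + η))` such that some divisor `d` of `rad (x_1 ⋯ x_n)` is within `p ^ c` of a positive
  multiple of `p` (for instance: `p` divides `x_1 ⋯ x_n`) satisfies `rad (x_1 ⋯ x_n) > p ^ (n / (n - 1) - δ)`.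

Method: the starting result `CountByRadicalSharp` counts the tuples with a given bound for the radical; the divisor
bound; few primes divide a number near a divisor of an exceptional radical (`Q84/NX/Core`, `Q84/NX/TriJ`); the
Maynard-Tao theorem relative to a modulus which is a small power of `X`, in the form that it avoids arbitrary
exceptional sets of size `X ^ (1 - η)` (`Q84/MB/E1-E4`), gives the strings.
-/

set_option autoImplicit false

open scoped Classical

namespace Pool.Agent.Results.MP_7ecdd4_nt.StringsOfPrimes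

open Finset Filter

/-- non-zero pairwise coprime integers with sum `0` -/
def Admissible {n : ℕ} (x : Fin n → ℤ) : Prop :=
  (∀ i, x i ≠ 0) ∧ (∀ i j, i ≠ j → IsCoprime (x i) (x j)) ∧ ∑ i, x i = 0

/-- the product of the primes dividing `x_1 ⋯ x_n` -/
def radical {n : ℕ} (x : Fin n → ℤ) : ℕ := ∏ p ∈ (∏ i, x i).natAbs.primeFactors, p

/-- all admissible tuples of height at most `exp ((log p) ^ (2 + η))` whose radical has a divisor `d` within `p ^ c` of a
positive multiple of `p` have a radical larger than `p ^ A` -/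
def Fine (n : ℕ) (A c η : ℝ) (p : ℕ) : Prop :=
  ∀ (x : Fin n → ℤ) (k d : ℕ), Admissible x → (∀ i, |(x i : ℝ)| ≤ Real.exp (Real.log p ^ (2 + η))) → 1 ≤ k →
    |(d : ℝ) - k * p| ≤ (p : ℝ) ^ c → d ∣ radical x → (p : ℝ) ^ A < radical x

/-- **Theorem.** -/
theorem result (n : ℕ) (hn : 3 ≤ n) (δ : ℝ) (hδ : 0 < δ) (hδ1 : δ ≤ 1 / ((n : ℝ) - 1)) :
    ∃ c η : ℝ, 0 < c ∧ 0 < η ∧ ∀ κ : ℝ, 0 < κ → ∀ m : ℕ, ∃ c' : ℝ, 0 < c' ∧
    ∀ Z : ℕ, ∃ D : ℕ, ∃ X₀ : ℝ, ∀ X : ℝ, X₀ ≤ X →
    ∃ S : Finset ℕ, (∀ q ∈ S, q.Prime ∧ Z < q) ∧ (S.card : ℝ) ≤ (Real.log X) ^ (49 / 50 : ℝ) ∧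
    ∀ f : ℕ → ℤ, (∀ q, f q = 1 ∨ f q = -1) →
      X ^ (1 - κ) ≤ (((Icc 1 ⌊3 * X⌋₊).filter fun r : ℕ => X < r ∧
        m ≤ ((Icc r (r + D)).filter Nat.Prime).card ∧
        ∀ p ∈ Icc r (r + D), p.Prime → Fine n ((n : ℝ) / (n - 1) - δ) c η p ∧
          ∀ q : ℕ, q.Prime → q ≠ 2 → (q : ℝ) ≤ c' * Real.log X → q ∉ S → jacobiSym p q = f q).card : ℝ) := by
  have hnr : (3 : ℝ) ≤ n := by exact_mod_cast hn
  obtain ⟨A, hA⟩ : ∃ A, A = (n : ℝ) / (n - 1) - δ := ⟨_, rfl⟩
  rw [← hA]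
  have hA1 : 1 ≤ A := by
    rw [hA]
    have : (n : ℝ) / (n - 1) = 1 + 1 / ((n : ℝ) - 1) := by
      have : (n : ℝ) - 1 ≠ 0 := by linarith
      field_simp
      ring
    linarith
  have hA0 : 0 < A := by linarith
  have hα : (n : ℝ) / (n - 1) * (((n : ℝ) - 1) / n) = 1 := by
    have h1 : (n : ℝ) - 1 ≠ 0 := by linarith
    have h2 : (n : ℝ) ≠ 0 := by linarith
    field_simp
  have hα1 : 0 < ((n : ℝ) - 1) / n := div_pos (by linarith) (by linarith)
  obtain ⟨s, hs⟩ : ∃ s, s = δ * (((n : ℝ) - 1) / n) := ⟨_, rfl⟩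
  have hs0 : 0 < s := by rw [hs]; positivity
  have hAα : A * (((n : ℝ) - 1) / n) = 1 - s := by rw [hA, hs, sub_mul, hα]
  obtain ⟨ε, hε⟩ : ∃ ε, ε = s / (2 * A) := ⟨_, rfl⟩
  have hε0 : 0 < ε := by rw [hε]; positivity
  have hAε : A * ε = s / 2 := by rw [hε]; field_simp
  obtain ⟨η, hη, C, hC, hcount⟩ := (CountByRadicalSharp.result n hn).1 ε hε0
  obtain ⟨E, hE⟩ : ∃ E : ℕ → Set (Fin n → ℤ), E = fun N : ℕ =>
      CountByRadicalSharp.Tuples n N (Real.exp ((1 + Real.log N) ^ (2 + η))) := ⟨_, rfl⟩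
  have hfin : ∀ N : ℕ, 1 ≤ N → (E N).Finite ∧ ((E N).ncard : ℝ) ≤ C * (N : ℝ) ^ (((n : ℝ) - 1) / n + ε) := by
    intro N hN
    rw [hE]
    exact hcount N (by exact_mod_cast hN)
  obtain ⟨U, hU⟩ : ∃ U : ℕ → Finset ℕ, U = fun N => if h : (E N).Finite then
      (h.toFinset.image fun x => radical x).filter (fun u => 1 ≤ u ∧ u ≤ N ^ 1) else ∅ := ⟨_, rfl⟩
  obtain ⟨c, hc, hc4, hmain⟩ := Pool.Agent.Q84.NX.fam_strings' 1 le_rfl U A (((n : ℝ) - 1) / n + ε) C hA0
    (by positivity) (by rw [mul_add, hAα, hAε]; linarith) (by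
    intro N u hu
    rw [hU] at hu
    simp only at hu
    split_ifs at hu with h
    · rw [mem_filter] at hu
      exact hu.2
    · simp at hu) (by
    intro N hN
    obtain ⟨h1, h2⟩ := hfin N hN
    refine le_trans ?_ h2
    rw [hU]
    simp only [dif_pos h1]
    rw [Nat.cast_le]
    refine (card_filter_le _ _).trans (card_image_le.trans ?_)
    rw [Set.ncard_eq_toFinset_card _ h1])
  refine ⟨c, η, hc, hη, hmain (Fine n A c η) ?_⟩
  filter_upwards [eventually_ge_atTop (1 : ℝ)] with X hX1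
  intro p hpp hXp hp4 hg
  obtain ⟨N, hN⟩ : ∃ N, N = ⌊(4 * X) ^ A⌋₊ := ⟨_, rfl⟩
  rw [← hN]
  have h4X : 4 * X ≤ (4 * X) ^ A := by
    calc 4 * X = (4 * X) ^ (1 : ℝ) := (Real.rpow_one _).symm
      _ ≤ (4 * X) ^ A := Real.rpow_le_rpow_of_exponent_le (by linarith) hA1
  have hN1 : 1 ≤ N := by
    rw [hN]
    exact Nat.le_floor (by push_cast; linarith)
  have hNr : (1 : ℝ) ≤ N := by exact_mod_cast hN1
  have hN4 : 4 * X ≤ 2 * N := by
    have h1 := Nat.lt_floor_add_one ((4 * X) ^ A)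
    rw [← hN] at h1
    linarith
  have hlog : Real.log p ≤ 1 + Real.log N := by
    have hp0 : (0 : ℝ) < p := by exact_mod_cast hpp.pos
    have h1 : Real.log p ≤ Real.log (2 * N) := Real.log_le_log hp0 (by linarith)
    rw [Real.log_mul (by norm_num) (by linarith)] at h1
    have h2 : Real.log 2 ≤ 1 := by
      have := Real.log_two_lt_d9
      linarith
    linarith
  have hlp0 : 0 ≤ Real.log p := Real.log_nonneg (by exact_mod_cast hpp.one_lt.le)
  unfold Fine at hg
  push Not at hg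
  obtain ⟨x, k, d, hx, hxh, hk, hkd, hd, hle⟩ := hg
  have hrad : radical x ≤ N := by
    rw [hN]
    exact Nat.le_floor (hle.trans (Real.rpow_le_rpow (Nat.cast_nonneg _) hp4 hA0.le))
  have hmem : x ∈ E N := by
    rw [hE]
    refine ⟨hx, by exact_mod_cast hrad, fun i => (hxh i).trans ?_⟩
    apply Real.exp_le_exp.2
    exact Real.rpow_le_rpow hlp0 hlog (by linarith)
  refine ⟨radical x, ?_, k, d, hk, hkd, hd⟩
  rw [hU]
  simp only [dif_pos (hfin N hN1).1]
  rw [mem_filter, mem_image]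
  refine ⟨⟨x, (Set.Finite.mem_toFinset _).2 hmem, rfl⟩, ?_, by rw [pow_one]; exact hrad⟩
  exact Finset.prod_pos fun q hq => (Nat.prime_of_mem_primeFactors hq).pos

end Pool.Agent.Results.MP_7ecdd4_nt.StringsOfPrimes
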